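import Pool.Agent.Q155.BS.Kum
import Pool.Agent.Y274.CT.ExiCnt
import Pool.Agent.Y405.CT.CriB

/-!
# The primes of the Eisenstein integers and the functionals
-/

set_option autoImplicit false
set_option linter.unusedVariables false
set_option linter.unusedSectionVars false

open scoped Classical

namespace Q155.BS

open Pool.Agent.Y692.QS
open Pool.Agent.Y715.T.Rec (cs exists_p nr_of_assoc)
open Pool.Agent.Y715.T.RecG (Pq cs_prod cs_pow)
open Pool.Agent.Y703.CT
open Pool.Agent.Y274.CT (coprime_dvd eq_of_dvd pq_ns assoc_ns nr_three not_dvd_star nat_prime_of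
  exists_one)
open Pool.Agent.Y405.CT (pq_star cs_starG)

/-- a primary prime of norm `l` -/
theorem exists_rho {l : ℕ} (hl : l.Prime) (h3 : l % 3 = 1) : ∃ ρ : Ei, Pq ρ ∧ nr ρ = l := by
  obtain ⟨π, hπ, hn⟩ := exists_one hl h3
  have hd : π ∣ (l : Ei) := by
    have h1 := mul_star π
    rw [hn, Int.cast_natCast] at h1
    exact ⟨star π, h1.symm⟩
  have h3' : ¬ π ∣ 3 := by
    intro h
    have hc : Nat.Coprime 3 l := by
      rw [Nat.Prime.coprime_iff_not_dvd Nat.prime_three]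
      omega
    exact coprime_dvd hπ hc (by exact_mod_cast h) hd
  refine ⟨ns π, pq_ns hπ h3', ?_⟩
  rw [← hn]
  exact (nr_of_assoc hπ (pq_ns hπ h3').prime (assoc_ns (nr_three hπ h3')).dvd).symm

theorem rho_mul {l : ℕ} {ρ : Ei} (h : nr ρ = l) : ρ * star ρ = (l : Ei) := by
  have h1 := mul_star ρ
  rwa [h, Int.cast_natCast] at h1

section
variable {J : Type} {π : J → Ei} {e : J → ZMod 3} (hπ : Dt π e) {D : ℕ}
  (hdvd : ∀ i, π i ∣ (D : Ei)) {k : ℕ} {l : Fin k → ℕ} (hl : ∀ j, (l j).Prime)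
  (hl3 : ∀ j, l j % 3 = 1) (hinj : Function.Injective l) (hnd : ∀ j, ¬ l j ∣ D)
  {ρ : Fin k → Ei} (hρ : ∀ j, Pq (ρ j)) (hnr : ∀ j, nr (ρ j) = l j)

include hπ hdvd hl hl3 hinj hnd hρ hnr in
/-- all the primes are different -/
theorem dt_all : Dt (Sum.elim π (Sum.elim ρ fun j => star (ρ j))) (Sum.elim e fun _ => 1) := by
  have d1 : ∀ j, ρ j ∣ (l j : Ei) := fun j => ⟨star (ρ j), (rho_mul (hnr j)).symm⟩
  have d2 : ∀ j, star (ρ j) ∣ (l j : Ei) := fun j =>
    ⟨ρ j, by rw [mul_comm]; exact (rho_mul (hnr j)).symm⟩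
  have hpq : ∀ m, Pq (Sum.elim π (Sum.elim ρ fun j => star (ρ j)) m) := by
    rintro (i | j | j)
    · exact hπ.pq i
    · exact hρ j
    · exact pq_star (hρ j)
  -- the integer below
  let b : J ⊕ (Fin k ⊕ Fin k) → ℕ := Sum.elim (fun _ => D) (Sum.elim l l)
  have hb : ∀ m, Sum.elim π (Sum.elim ρ fun j => star (ρ j)) m ∣ (b m : Ei) := by
    rintro (i | j | j)
    · exact hdvd i
    · exact d1 j
    · exact d2 j
  have hcop : ∀ m n, Nat.Coprime (b m) (b n) →
      ¬ Sum.elim π (Sum.elim ρ fun j => star (ρ j)) n ∣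
        Sum.elim π (Sum.elim ρ fun j => star (ρ j)) m := fun m n h hd =>
    coprime_dvd (hpq n).prime h (hd.trans (hb m)) (hb n)
  have hc1 : ∀ j, Nat.Coprime (l j) D := fun j =>
    (Nat.Prime.coprime_iff_not_dvd (hl j)).2 (hnd j)
  have hc2 : ∀ i j, i ≠ j → Nat.Coprime (l i) (l j) := fun i j hij =>
    (Nat.coprime_primes (hl i) (hl j)).2 fun h => hij (hinj h)
  have hs1 : ∀ j, ¬ ρ j ∣ star (ρ j) := fun j =>
    not_dvd_star (hl j) (fun h => by have := hl3 j; omega) (hnr j)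
  have hs2 : ∀ j, ¬ star (ρ j) ∣ ρ j := fun j h => by
    have h1 := Pool.Agent.Y715.T.RecC.star_dvd h
    rw [star_star] at h1
    exact hs1 j h1
  refine ⟨hpq, ?_, ?_⟩
  · rintro (i | i | i) (j | j | j) hij
    · exact hπ.nd i j fun h => hij (congrArg Sum.inl h)
    · exact hcop _ _ (hc1 j).symm
    · exact hcop _ _ (hc1 j).symm
    · exact hcop _ _ (hc1 i)
    · exact hcop _ _ (hc2 i j fun h => hij (by rw [h]))
    · by_cases h : i = j
      · subst h
        exact hs2 i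
      · exact hcop _ _ (hc2 i j h)
    · exact hcop _ _ (hc1 i)
    · by_cases h : i = j
      · subst h
        exact hs1 i
      · exact hcop _ _ (hc2 i j h)
    · exact hcop _ _ (hc2 i j fun h => hij (by rw [h]))
  · rintro (i | j)
    · exact hπ.e0 i
    · exact one_ne_zero

end

/-! ## the functionals -/

section
variable {k : ℕ} (ρ : Fin k → Ei)

/-- the functional of a prime -/
noncomputable def lamF (π : Ei) : (Fin k → ZMod 3) →ₗ[ZMod 3] ZMod 3 :=
  ∑ j, (cs π (ρ j) - cs π (star (ρ j))) • LinearMap.proj j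

theorem lamF_apply (π : Ei) (x : Fin k → ZMod 3) :
    lamF ρ π x = ∑ j, (cs π (ρ j) - cs π (star (ρ j))) * x j := by
  unfold lamF
  rw [LinearMap.sum_apply]
  rfl

variable {ρ}

theorem cs_lamF {π : Ei} (hπ : Pq π) (h1 : ∀ j, ¬ π ∣ ρ j) (h2 : ∀ j, ¬ π ∣ star (ρ j))
    (x : Fin k → ZMod 3) :
    cs π (∏ m, Sum.elim ρ (fun j => star (ρ j)) m ^ (Sum.elim x (fun j => -x j) m).val) =
      lamF ρ π x := by
  have h3 : ∀ m, ¬ π ∣ Sum.elim ρ (fun j => star (ρ j)) m := by
    rintro (j | j)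
    · exact h1 j
    · exact h2 j
  rw [cs_prod hπ.prime hπ.norm _ _ fun m _ h => h3 m (hπ.prime.dvd_of_dvd_pow h)]
  have h4 : ∀ m, cs π (Sum.elim ρ (fun j => star (ρ j)) m ^ (Sum.elim x (fun j => -x j) m).val) =
      Sum.elim x (fun j => -x j) m * cs π (Sum.elim ρ (fun j => star (ρ j)) m) := by
    intro m
    rw [cs_pow hπ.prime hπ.norm (h3 m), ZMod.natCast_zmod_val]
  simp only [h4]
  rw [Fintype.sum_sum_type, lamF_apply, ← Finset.sum_add_distrib]
  refine Finset.sum_congr rfl fun j _ => ?_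
  show x j * cs π (ρ j) + -x j * cs π (star (ρ j)) = _
  ring

theorem lamF_star {π : Ei} (hπ : Pq π) (h1 : ∀ j, ¬ π ∣ ρ j) (h2 : ∀ j, ¬ π ∣ star (ρ j)) :
    lamF ρ (star π) = lamF ρ π := by
  refine LinearMap.ext fun x => ?_
  rw [lamF_apply, lamF_apply]
  refine Finset.sum_congr rfl fun j _ => ?_
  have e1 : cs (star π) (star (ρ j)) = -cs π (ρ j) := cs_starG hπ (h1 j)
  have e2 : cs (star π) (ρ j) = -cs π (star (ρ j)) := by
    have := cs_starG hπ (h2 j)
    rwa [star_star] at this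
  rw [e1, e2]
  ring

/-- the two primes above a prime number -/
theorem above {π π' : Ei} (h : Pq π) (h' : Pq π') {p : ℕ} (hp : p.Prime) (hd : π ∣ (p : Ei))
    (hd' : π' ∣ (p : Ei)) : π' = π ∨ π' = star π := by
  obtain ⟨l, hl, hl1, hl2⟩ := exists_p h.prime
  have hlp : l = p := by
    by_contra hne
    exact coprime_dvd h.prime ((Nat.coprime_primes hl hp).2 hne) hl1 hd
  subst hlp
  rcases hl2 with hn | hn
  · rw [← rho_mul hn] at hd'
    rcases h'.prime.dvd_or_dvd hd' with h1 | h1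
    · exact Or.inl (eq_of_dvd h h' h1)
    · exact Or.inr (eq_of_dvd (pq_star h) h' h1)
  · exact Or.inl (eq_of_dvd h h' (hd'.trans (nat_prime_of hd hp.ne_zero hn).dvd'))

theorem exists_kerF {J : Type} {π : J → Ei} (hpq : ∀ i, Pq (π i)) {D : ℕ} (hD0 : D ≠ 0)
    (hdvd : ∀ i, π i ∣ (D : Ei)) (h1 : ∀ i j, ¬ π i ∣ ρ j) (h2 : ∀ i j, ¬ π i ∣ star (ρ j)) :
    ∃ φ : (Fin (k - D.primeFactors.card) → ZMod 3) →ₗ[ZMod 3] (Fin k → ZMod 3),
      Function.Injective φ ∧ ∀ y i, lamF ρ (π i) (φ y) = 0 := by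
  let Φ : (Fin k → ZMod 3) →ₗ[ZMod 3] (D.primeFactors → ZMod 3) := LinearMap.pi fun p =>
    if h : ∃ i, π i ∣ ((p : ℕ) : Ei) then lamF ρ (π h.choose) else 0
  have hΦ : ∀ x, Φ x = 0 → ∀ i, lamF ρ (π i) x = 0 := by
    intro x hx i
    have h3 : ∃ p ∈ D.primeFactors, π i ∣ ((p : ℕ) : Ei) := by
      have h4 := hdvd i
      rw [← Nat.factorization_prod_pow_eq_self hD0, Finsupp.prod, Nat.support_factorization,
        Nat.cast_prod] at h4
      obtain ⟨p, hp, h5⟩ := ((hpq i).prime.dvd_finsetProd_iff _).1 h4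
      rw [Nat.cast_pow] at h5
      exact ⟨p, hp, (hpq i).prime.dvd_of_dvd_pow h5⟩
    obtain ⟨p, hp, hpd⟩ := h3
    have h6 := congrFun hx ⟨p, hp⟩
    have hex : ∃ i, π i ∣ ((p : ℕ) : Ei) := ⟨i, hpd⟩
    have h7 : Φ x ⟨p, hp⟩ = lamF ρ (π hex.choose) x := by
      show (if h : ∃ i, π i ∣ ((p : ℕ) : Ei) then lamF ρ (π h.choose) else 0) x = _
      rw [dif_pos hex]
    rw [h7] at h6
    rcases above (hpq hex.choose) (hpq i) (Nat.prime_of_mem_primeFactors hp)
      hex.choose_spec hpd with h8 | h8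
    · rw [h8]
      exact h6
    · rw [h8, lamF_star (hpq _) (h1 _) (h2 _)]
      exact h6
  -- the dimension
  have hdim : k - D.primeFactors.card ≤ Module.finrank (ZMod 3) (LinearMap.ker Φ) := by
    have h3 := LinearMap.finrank_range_add_finrank_ker Φ
    rw [Module.finrank_fin_fun] at h3
    have h4 : Module.finrank (ZMod 3) (LinearMap.range Φ) ≤ D.primeFactors.card := by
      refine (Submodule.finrank_le _).trans ?_
      rw [Module.finrank_fintype_fun_eq_card, Fintype.card_coe]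
    omega
  let b := Module.finBasis (ZMod 3) (LinearMap.ker Φ)
  have hli : LinearIndependent (ZMod 3) (fun i => b (Fin.castLE hdim i)) :=
    b.linearIndependent.comp _ (Fin.castLE_injective hdim)
  refine ⟨(LinearMap.ker Φ).subtype.comp
    (Fintype.linearCombination (ZMod 3) fun i => b (Fin.castLE hdim i)), ?_, ?_⟩
  · rw [LinearMap.coe_comp]
    exact (Submodule.injective_subtype _).comp (LinearIndependent.fintypeLinearCombination_injective hli)
  · intro y i
    exact hΦ _ (LinearMap.mem_ker.1 (Subtype.prop _)) i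

end

end Q155.BS
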