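import Pool.Agent.Q155.BS.Kum
import Pool.Agent.Y781.CT.Last

/-!
# The characters of global points over an extension
-/

set_option autoImplicit false
set_option linter.unusedVariables false

open scoped Classical

namespace Q155.BS

open WeierstrassCurve
open Pool.Agent.Y692.QS (Ei w nr toC)
open Pool.Agent.Y715.T.Gi Pool.Agent.Y715.T.Nr Pool.Agent.Y715.T.Df Pool.Agent.Y715.T.Ell
open Pool.Agent.Y703.CT
open Pool.Agent.Y155.CT (dd dd_ker ah ah_dd ah_apply ah_nT3 ah_tt dd_T3 nsmul_tt T3 dd_tt)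

variable {i₀ : QB} (hi : i₀ ^ 2 + i₀ + 1 = 0) (a : GK i₀ → ZMod 3) (S : Set (GK i₀))

/-- the points fixed by the elements of `S`, for the twisted action -/
noncomputable def AS : AddSubgroup (Pt QB) where
  carrier := {P | ∀ σ ∈ S, ah hi a σ P = P}
  zero_mem' := fun σ _ => map_zero _
  add_mem' := fun h h' σ hσ => by rw [map_add, h σ hσ, h' σ hσ]
  neg_mem' := fun h σ hσ => by rw [map_neg, h σ hσ]

variable {hi a S}

theorem dd_memS {P : Pt QB} (h : P ∈ AS hi a S) : dd hi P ∈ AS hi a S := fun σ hσ => by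
  rw [ah_dd, h σ hσ]

theorem tt_of_ddS (hne : ∃ σ ∈ S, a σ ≠ 0) {P : Pt QB} (hP : P ∈ AS hi a S) {c : ZMod 3}
    (h : dd hi P = tt QB c) : ∃ d, P = tt QB d := by
  have h1 : dd hi (P - c.val • T3 hi) = 0 := by
    rw [map_sub, map_nsmul, dd_T3, nsmul_tt, mul_one, ZMod.natCast_zmod_val, h, sub_self]
  obtain ⟨d, hd⟩ := dd_ker hi h1
  obtain ⟨σ, hσS, hσ⟩ := hne
  have h2 : P = c.val • T3 hi + tt QB d := by rw [← hd]; abel
  have h3 : -tt QB (c * a σ) = 0 := by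
    rw [← ah_nT3 hi a σ c]
    have h4 := hP σ hσS
    rw [h2, map_add, ah_tt] at h4
    rw [add_right_cancel h4, sub_self]
  rw [neg_eq_zero, tt_eq_zero] at h3
  have h5 : c = 0 := (mul_eq_zero.1 h3).resolve_right hσ
  refine ⟨d, ?_⟩
  rw [h2, h5, ZMod.val_zero, zero_smul, zero_add]

theorem decS (hne : ∃ σ ∈ S, a σ ≠ 0) (hfin : Finite (AS hi a S)) {P : Pt QB}
    (hP : P ∈ AS hi a S) : ∃ Q ∈ AS hi a S, ∃ c, P = dd hi Q + tt QB c := by
  let C : AddSubgroup (Pt QB) := (AS hi a S).map (dd hi)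
  have hC : C ≤ AS hi a S := by
    rintro _ ⟨Q, hQ, rfl⟩
    exact dd_memS hQ
  have hfC : Finite C := Finite.of_injective _ (AddSubgroup.inclusion_injective hC)
  let f : C → C := fun Q => ⟨dd hi Q.1, Q.1, hC Q.2, rfl⟩
  have hinj : Function.Injective f := by
    rintro ⟨_, Q₁, hQ₁, rfl⟩ ⟨_, Q₂, hQ₂, rfl⟩ h
    have h1 : dd hi (dd hi Q₁) = dd hi (dd hi Q₂) := congrArg Subtype.val h
    have h2 : dd hi (dd hi (Q₁ - Q₂)) = 0 := by
      rw [map_sub, map_sub, h1, sub_self]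
    obtain ⟨c, hc⟩ := dd_ker hi h2
    obtain ⟨d, hd⟩ := tt_of_ddS hne (sub_mem hQ₁ hQ₂) hc
    apply Subtype.ext
    show dd hi Q₁ = dd hi Q₂
    rw [← sub_eq_zero, ← map_sub, hd, dd_tt]
  have hsurj := Finite.surjective_of_injective hinj
  obtain ⟨⟨_, Q, hQ, rfl⟩, h⟩ := hsurj ⟨dd hi P, P, hP, rfl⟩
  have h1 : dd hi (dd hi Q) = dd hi P := congrArg Subtype.val h
  have h2 : dd hi (P - dd hi Q) = 0 := by rw [map_sub, h1, sub_self]
  obtain ⟨c, hc⟩ := dd_ker hi h2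
  exact ⟨Q, hQ, c, by rw [← hc]; abel⟩

/-- the characters of the points over the extension are the multiples of `a` -/
theorem lastS (hne : ∃ σ ∈ S, a σ ≠ 0) (hfin : Finite (AS hi a S)) {h : GK i₀ → ZMod 3}
    {P : Pt QB} (hP : ∀ σ ∈ S, act hi a σ P - P = tt _ (h σ)) :
    ∃ c : ZMod 3, ∀ σ ∈ S, h σ = c * a σ := by
  have hP' : ∀ σ ∈ S, ah hi a σ P = P + tt QB (h σ) := fun σ hσ => by
    rw [ah_apply, ← hP σ hσ]
    abel
  have hQ : dd hi P ∈ AS hi a S := fun σ hσ => by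
    rw [ah_dd, hP' σ hσ, map_add, dd_tt, add_zero]
  obtain ⟨Q', hQ', c, hc⟩ := decS hne hfin hQ
  have h1 : dd hi (P - Q' - c.val • T3 hi) = 0 := by
    rw [map_sub, map_sub, map_nsmul, dd_T3, nsmul_tt, mul_one, ZMod.natCast_zmod_val, hc]
    abel
  obtain ⟨d, hd⟩ := dd_ker hi h1
  have h2 : P = Q' + c.val • T3 hi + tt QB d := by
    rw [← hd]
    abel
  refine ⟨-c, fun σ hσ => ?_⟩
  have h3 := hP' σ hσ
  have h4 := ah_nT3 hi a σ c
  have h5 : ah hi a σ P = Q' + ah hi a σ (c.val • T3 hi) + tt QB d := by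
    conv_lhs => rw [h2]
    rw [map_add, map_add, ah_tt, hQ' σ hσ]
  have h6 : tt QB (h σ) = -tt QB (c * a σ) := by
    rw [← h4]
    have h7 : tt QB (h σ) = ah hi a σ P - P := by rw [h3]; abel
    rw [h7, h5]
    conv_lhs => rw [h2]
    abel
  rw [tt_neg] at h6
  have h8 := tt_inj h6
  rw [h8, neg_mul]

end Q155.BS
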