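import Pool.Agent.Y703.CT.Kloc
import Pool.Agent.Y155.CT.Act

/-!
# Linear combinations of cubic characters
-/

set_option autoImplicit false
set_option linter.unusedSectionVars false

open scoped Classical

namespace Q155.BS

open Pool.Agent.Y692.QS (Ei w nr)
open Pool.Agent.Y715.T.Gi Pool.Agent.Y715.T.Nr Pool.Agent.Y715.T.Df
open Pool.Agent.Y715.T.Rec (cs)
open Pool.Agent.Y715.T.RecG
open Pool.Agent.Y715.T.Sel (kc_mul kc_one kc_congr kc_pow kc_uniq kc_exp ex_root root_ne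
  iota_sq iota_ev odd_of not_dvd_of_unr i₀_mod i₀_add i₀_inj)
open Pool.Agent.Y48.CT.SEL (p0 pr0 esq prod_form cf_prod not_assoc_lam)
open Pool.Agent.Y155.CT (a_mul a_cont)
open Pool.Agent.Y703.CT
open Pool.Agent.Y363.CT.SELC (exists_tw)

variable {i₀ : QB} {hi : i₀ ^ 2 + i₀ + 1 = 0}

/-- the cubic character of an element exists -/
theorem exists_kc {z : Ei} (hz : z ≠ 0) : ∃ h : GK i₀ → ZMod 3, Kc hi z h := by
  obtain ⟨u, a, hT⟩ := exists_tw (hi := hi) z
  exact ⟨fun σ => -a σ, kc_of hi (root_ne (hi := hi) hz hT.cube) hT.cube hT.act⟩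

theorem kc_tw {z : Ei} {h : GK i₀ → ZMod 3} (hz : z ≠ 0) (hk : Kc hi z h) :
    ∃ u, Tw hi z u (fun σ => -h σ) := by
  obtain ⟨s, hs⟩ := ex_root (ev i₀ hi z)
  refine ⟨s, hs, fun σ => ?_⟩
  rw [neg_neg]
  exact hk s hs σ

theorem kc_hom {z : Ei} {h : GK i₀ → ZMod 3} (hz : z ≠ 0) (hk : Kc hi z h) (σ τ : GK i₀) :
    h (σ * τ) = h σ + h τ := by
  obtain ⟨u, hT⟩ := kc_tw hz hk
  have h1 := a_mul hz hT σ τ
  linear_combination -h1

theorem kc_cont {z : Ei} {h : GK i₀ → ZMod 3} (hz : z ≠ 0) (hk : Kc hi z h) :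
    IsLocallyConstant h := by
  obtain ⟨u, hT⟩ := kc_tw hz hk
  have h1 := (a_cont hz hT).comp (fun c : ZMod 3 => -c)
  have e : (fun c : ZMod 3 => -c) ∘ (fun σ : GK i₀ => -h σ) = h := by
    funext σ
    exact neg_neg _
  rwa [e] at h1

variable {I : Type} [Fintype I] {Q : I → Ei} {E : I → ZMod 3} {κ : I → GK i₀ → ZMod 3}

/-- the character of a product -/
theorem kc_lin (hQ : ∀ i, Q i ≠ 0) (hκ : ∀ i, Kc hi (Q i) (κ i)) (f : I → ZMod 3) :
    Kc hi (∏ i, Q i ^ (f i).val) (fun σ => ∑ i, f i * κ i σ) := by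
  have h1 : ∀ S : Finset I, Kc hi (∏ i ∈ S, Q i ^ (f i).val) (fun σ => ∑ i ∈ S, f i * κ i σ) := by
    intro S
    induction S using Finset.induction_on with
    | empty =>
      rw [Finset.prod_empty]
      exact kc_congr kc_one fun σ => by rw [Finset.sum_empty]
    | insert i S hi' ih =>
      rw [Finset.prod_insert hi']
      refine kc_congr (kc_mul (pow_ne_zero _ (hQ i))
        (Finset.prod_ne_zero_iff.2 fun j _ => pow_ne_zero _ (hQ j))
        (kc_pow (hQ i) (hκ i) (f i).val) ih) fun σ => ?_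
      rw [Finset.sum_insert hi', ZMod.natCast_zmod_val]
  exact h1 Finset.univ

/-- the characters of different primes are independent -/
theorem lin_inj (hD : Dt Q E) (hκ : ∀ i, Kc hi (Q i) (κ i)) {f : I → ZMod 3}
    (h0 : ∀ σ, ∑ i, f i * κ i σ = 0) : f = 0 := by
  funext j
  have hK := kc_lin (p0 hD) hκ f
  obtain ⟨p, hp, ι, hl⟩ := exists_emb hi (hD.pq j).prime
  have hp3 := odd_of hi ι (hD.pq j).prime hl (not_assoc_lam (hD.pq j))
  have h1 := not_dvd_of_unr (cf_prod hD f) hK hp3 ι (hD.pq j).prime hl (fun τ σ _ _ => h0 σ)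
  by_contra hne
  apply h1
  refine dvd_trans (dvd_pow_self (Q j) ?_) (Finset.dvd_prod_of_mem
    (fun i => Q i ^ (f i).val) (Finset.mem_univ j))
  rwa [Ne, ZMod.val_eq_zero]

/-- a character which vanishes where some characters vanish is a linear combination of them -/
theorem lin_ext {G : Type} [Group G] {k : ℕ} (a : G → Fin k → ZMod 3)
    (ha : ∀ σ τ, a (σ * τ) = a σ + a τ) (h : G → ZMod 3) (hh : ∀ σ τ, h (σ * τ) = h σ + h τ)
    (h0 : ∀ σ, a σ = 0 → h σ = 0) : ∃ c : Fin k → ZMod 3, ∀ σ, h σ = ∑ j, c j * a σ j := by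
  have h1 : h 1 = 0 := by
    have := hh 1 1
    rw [mul_one] at this
    exact left_eq_add.1 this
  have a1 : a 1 = 0 := by
    have := ha 1 1
    rw [mul_one] at this
    exact left_eq_add.1 this
  have hinv : ∀ σ, h σ⁻¹ = -h σ := fun σ => by
    have := hh σ⁻¹ σ
    rw [inv_mul_cancel, h1] at this
    exact (neg_eq_of_add_eq_zero_left this.symm).symm
  have ainv : ∀ σ, a σ⁻¹ = -a σ := fun σ => by
    have := ha σ⁻¹ σ
    rw [inv_mul_cancel, a1] at this
    exact (neg_eq_of_add_eq_zero_left this.symm).symm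
  have hw : ∀ σ τ, a σ = a τ → h σ = h τ := by
    intro σ τ hst
    have h2 : a (σ * τ⁻¹) = 0 := by rw [ha, ainv, hst, add_neg_cancel]
    have h3 := h0 _ h2
    rw [hh, hinv] at h3
    linear_combination h3
  let W : AddSubgroup (Fin k → ZMod 3) :=
    { carrier := Set.range a
      zero_mem' := ⟨1, a1⟩
      add_mem' := by
        rintro _ _ ⟨σ, rfl⟩ ⟨τ, rfl⟩
        exact ⟨σ * τ, ha σ τ⟩
      neg_mem' := by
        rintro _ ⟨σ, rfl⟩
        exact ⟨σ⁻¹, ainv σ⟩ }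
  let Wm : Submodule (ZMod 3) (Fin k → ZMod 3) := AddSubgroup.toZModSubmodule 3 W
  have hWm : ∀ x : Wm, ∃ σ, a σ = x.1 := fun x => x.2
  choose s hs using hWm
  let φ : Wm →+ ZMod 3 :=
    { toFun := fun x => h (s x)
      map_zero' := by
        have : h (s 0) = h 1 := hw _ _ (by rw [hs, a1]; rfl)
        rw [this, h1]
      map_add' := fun x y => by
        rw [← hh]
        refine hw _ _ ?_
        rw [ha, hs, hs, hs]
        rfl }
  obtain ⟨g, hg⟩ := LinearMap.exists_extend (φ.toZModLinearMap 3)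
  refine ⟨fun j => g (Pi.single j 1), fun σ => ?_⟩
  have h2 : g (a σ) = h σ := by
    have h3 := LinearMap.congr_fun hg ⟨a σ, ⟨σ, rfl⟩⟩
    have h4 : g (a σ) = h (s ⟨a σ, ⟨σ, rfl⟩⟩) := h3
    rw [h4]
    exact hw _ _ (hs _)
  rw [← h2]
  conv_lhs => rw [← Finset.univ_sum_single (a σ)]
  rw [map_sum]
  refine Finset.sum_congr rfl fun j _ => ?_
  have h5 : (Pi.single j (a σ j) : Fin k → ZMod 3) = a σ j • Pi.single j 1 := by
    rw [← Pi.single_smul, smul_eq_mul, mul_one]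
  rw [h5, map_smul, smul_eq_mul, mul_comm]

end Q155.BS
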