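import Pool.Agent.Q155.BS.Kum
import Pool.Agent.Y894.CT.EXT
import Pool.Agent.Y809.CT.Shq
import Pool.Agent.Y379.CT.Ramc
import Pool.Agent.Y674.CT.PT
import Pool.Agent.Y100.CT.CUB3
import Pool.Agent.Y319.CT.FF

/-!
# The local conditions for the characters of the primes `ℓ_j`
-/

set_option autoImplicit false
set_option linter.unusedSectionVars false
set_option linter.unusedVariables false

open scoped Classical

namespace Q155.BS

open WeierstrassCurve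
open Pool.Agent.Y692.QS (Ei w nr)
open Pool.Agent.Y692.CT (PD ac Ph act_Ph_loc rs rs_apply)
open Pool.Agent.Y715.T.Gi Pool.Agent.Y715.T.Nr Pool.Agent.Y715.T.Df Pool.Agent.Y715.T.Ell
open Pool.Agent.Y715.T.Red
open Pool.Agent.Y715.T.Rec (cs)
open Pool.Agent.Y715.T.RecG (Pq)
open Pool.Agent.Y715.T.Sel (kc_mul kc_one kc_congr kc_pow kc_uniq kc_exp ex_root root_ne
  iota_ev odd_of not_dvd_of_unr)
open Pool.Agent.Y48.CT.SEL (p0 pr0 esq prod_form cf_prod not_assoc_lam)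
open Pool.Agent.Y703.CT
open Pool.Agent.Y379.CT (hensel pow_val_eq_one)

variable {i₀ : QB} {hi : i₀ ^ 2 + i₀ + 1 = 0}

/-- the primes at which everything is unramified -/
theorem good {I : Type} [Fintype I] {Q : I → Ei} {κ : I → GK i₀ → ZMod 3} (hQ : ∀ i, Q i ≠ 0)
    (hκ : ∀ i, Kc hi (Q i) (κ i)) (f : I → ZMod 3) {D : Ei} (hD0 : D ≠ 0) {u : QB}
    {a : GK i₀ → ZMod 3} (hT : Tw hi D u a) {p : ℕ} [Fact p.Prime] (hp : p ≠ 3)
    (ι : QB →ₐ[ℚ] PadicAlgCl p) (hf : ∀ i, f i ≠ 0 → ¬ ‖ι (ev i₀ hi (Q i))‖ < 1)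
    (hD : ¬ ‖ι (ev i₀ hi D)‖ < 1) : ∃ R, St1 hi ι a (fun σ => ∑ i, f i * κ i σ) R := by
  have hI := iota_sq' hi ι
  refine Pool.Agent.Y674.CT.t_PT i₀ hi (∏ i, Q i ^ (f i).val) D
    (Finset.prod_ne_zero_iff.2 fun i _ => pow_ne_zero _ (hQ i)) hD0 u a hT _
    (kc_lin hQ hκ f) p ι ?_
  refine Pool.Agent.Y379.CT.t_CUB Pool.Agent.Y319.CT.t_FF p hp (ι i₀) hI _ _ ?_ ?_
  · have h1 : ‖ev (ι i₀) hI (∏ j, Q j ^ (f j).val)‖ = 1 := by
      rw [map_prod, norm_prod]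
      refine Finset.prod_eq_one fun j _ => ?_
      rw [map_pow, norm_pow]
      by_cases h0 : f j = 0
      · rw [h0, ZMod.val_zero, pow_zero]
      · have h2 := hf j h0
        rw [iota_ev] at h2
        rw [eq_one_of_not_lt hI h2, one_pow]
    rw [h1]
    exact lt_irrefl _
  · rw [iota_ev] at hD
    exact hD

/-- the prime above three -/
theorem three {I : Type} [Fintype I] {Q : I → Ei} {κ : I → GK i₀ → ZMod 3} {E : I → ZMod 3}
    (hQ : Dt Q E) (hκ : ∀ i, Kc hi (Q i) (κ i)) (f : I → ZMod 3) {D : Ei} (hD0 : D ≠ 0) {u : QB}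
    {a : GK i₀ → ZMod 3} (hT : Tw hi D u a) (hD3 : (3 : Ei) ∣ D - 1)
    (h9 : ¬ (9 : ℤ) ∣ nr D - 1) (hp : Fact (Nat.Prime 3)) (ι : QB →ₐ[ℚ] PadicAlgCl 3) :
    ∃ R, St1 hi ι a (fun σ => ∑ i, f i * κ i σ) R :=
  Pool.Agent.Y674.CT.t_PT i₀ hi (∏ i, Q i ^ (f i).val) D
    (Finset.prod_ne_zero_iff.2 fun i _ => pow_ne_zero _ (p0 hQ i)) hD0 u a hT _
    (kc_lin (p0 hQ) hκ f) 3 ι
    (Pool.Agent.Y100.CT.CUB3.t_cub3 hp (ι i₀) (iota_sq' hi ι) _ _ (prod_form hQ _) hD3 h9)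

/-- a character is trivial on the decomposition group of `π` if the number is a cube modulo `π` -/
theorem dec_zero {π B : Ei} (hπ : Pq π) (hB : ¬ π ∣ B) (hcs : cs π B = 0) {h : GK i₀ → ZMod 3}
    (hK : Kc hi B h) {p : ℕ} [Fact p.Prime] (ι : QB →ₐ[ℚ] PadicAlgCl p)
    (hl : ‖ι (ev i₀ hi π)‖ < 1) {τ : Au p} {σ : GK i₀} (hc : Cmp ι τ σ) : h σ = 0 := by
  have hI := iota_sq' hi ι
  have hp : p ≠ 3 := odd_of hi ι hπ.prime hl (not_assoc_lam hπ)
  have hl' := hl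
  rw [iota_ev] at hl'
  obtain ⟨x, hx⟩ := (Pool.Agent.Y715.T.RecG.cs_zero_iff hπ.prime hπ.norm hB).1 hcs
  have hxd : ¬ π ∣ x := by
    intro h1
    apply hB
    have h2 := dvd_add hx (dvd_pow h1 three_ne_zero)
    rwa [sub_add_cancel] at h2
  obtain ⟨s, hs, hs1, hsf⟩ := hensel hI hp (c := ev (ι i₀) hI B) (y := ev (ι i₀) hI x)
    (fun τ hτ => ev_fix hI hτ B) (fun τ hτ => ev_fix hI hτ x)
    (eq_one_of_not_lt hI ((dvd_iff hI hπ.prime hl' x).not.1 hxd)) (by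
      have h1 := (dvd_iff hI hπ.prime hl' _).1 hx
      rw [map_sub, map_pow, ← norm_neg, neg_sub] at h1
      exact h1)
  obtain ⟨b, hb⟩ := ex_root (ev i₀ hi B)
  have hB0 : B ≠ 0 := fun h0 => hB (h0 ▸ dvd_zero π)
  have hb0 : b ≠ 0 := root_ne (hi := hi) hB0 hb
  have hcube : (ι b) ^ 3 = s ^ 3 := by
    rw [← map_pow, hb, hs, iota_ev]
  obtain ⟨n, hn⟩ := cube_eq hI hcube
  have h1 : τ (ι b) = ι b := by
    rw [hn, map_mul, map_pow, hc.fix, hsf τ hc.fix]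
  rw [hc] at h1
  have h2 := ι.injective h1
  rw [hK b hb σ] at h2
  have h4 : i₀ ^ (h σ).val = 1 := by
    apply mul_right_cancel₀ hb0
    rw [h2, one_mul]
  have h5 := pow_val_eq_one hi _ h4
  rwa [ZMod.natCast_zmod_val] at h5

/-- at a prime of degree one all automorphisms fix the root of unity -/
theorem fix_split {ρ : Ei} (hρ : Prime ρ) (hs : ¬ ρ ∣ star ρ) {p : ℕ} [Fact p.Prime]
    (ι : QB →ₐ[ℚ] PadicAlgCl p) (hl : ‖ι (ev i₀ hi ρ)‖ < 1) (τ : Au p) :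
    τ (ι i₀) = ι i₀ := by
  have hI := iota_sq' hi ι
  have h2 : (τ (ι i₀)) ^ 2 + τ (ι i₀) + 1 = 0 := by
    rw [← map_pow, ← map_add, ← map_one τ, ← map_add, hI, map_zero]
  have h3 : (τ (ι i₀) - ι i₀) * (τ (ι i₀) - (-1 - ι i₀)) = 0 := by
    linear_combination h2 - hI
  rcases mul_eq_zero.1 h3 with h4 | h4
  · exact sub_eq_zero.1 h4
  exfalso
  have h5 := sub_eq_zero.1 h4
  have hi' : (-1 - i₀) ^ 2 + (-1 - i₀) + 1 = 0 := by linear_combination hi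
  have e1 : τ (ι (ev i₀ hi ρ)) = ι (ev i₀ hi (star ρ)) := by
    rw [← Pool.Agent.Y894.CT.ev_star hi hi', ev_apply, ev_apply]
    simp only [map_add, map_mul, map_intCast, map_sub, map_neg, map_one]
    rw [h5]
  rw [iota_ev] at hl
  apply hs
  rw [dvd_iff hI hρ hl, ← iota_ev (hi := hi), ← e1, nrm, iota_ev]
  exact hl

/-- the local statement at one prime of `ℚ` -/
theorem local_all {J : Type} [Fintype J] {π : J → Ei} {e : J → ZMod 3} (hπ : Dt π e) {k : ℕ}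
    {ρ : Fin k → Ei} {E : J ⊕ (Fin k ⊕ Fin k) → ZMod 3}
    (hQ : Dt (Sum.elim π (Sum.elim ρ fun j => star (ρ j))) E)
    (h9 : ¬ (9 : ℤ) ∣ nr (pD π e) - 1) {D : ℤ} (hD : D ≠ 0) {u : QB} (hu : u ^ 3 = D)
    {a : GK i₀ → ZMod 3} (ha : ∀ σ : GK i₀, σ u = i₀ ^ (-a σ).val * u) {u' : QB}
    (hT : Tw hi (pD π e) u' a) {κ : Fin k ⊕ Fin k → GK i₀ → ZMod 3}
    (hκ : ∀ m, Kc hi (Sum.elim ρ (fun j => star (ρ j)) m) (κ m)) (x : Fin k → ZMod 3)
    (hx : ∀ i, cs (π i) (∏ m, Sum.elim ρ (fun j => star (ρ j)) m ^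
      (Sum.elim x (fun j => -x j) m).val) = 0)
    {g : (QB ≃ₐ[ℚ] QB) → ZMod 3}
    (hg : Ext (i₀ := i₀) (fun σ => ∑ m, Sum.elim x (fun j => -x j) m * κ m σ) g)
    {s : Fin k → QB} (hs : ∀ j, s j ^ 3 = ev i₀ hi (ρ j * star (ρ j)))
    {p : ℕ} [Fact p.Prime] (ι : QB →ₐ[ℚ] PadicAlgCl p) :
    ∃ P : PD D (PadicAlgCl p), ∀ (τ : Au p) (σ : QB ≃ₐ[ℚ] QB), (∀ y, τ (ι y) = ι (σ y)) →
      (∀ j, σ (s j) = s j) → ac D ι (Ph hD hu (tt QB (g σ))) = ac D (lh τ) P - P := by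
  have hpD0 : pD π e ≠ 0 := pr0 hπ _
  have hR : Dt (Sum.elim ρ fun j => star (ρ j)) (fun m => E (Sum.inr m)) :=
    ⟨fun m => hQ.pq (Sum.inr m), fun m m' hm => hQ.nd (Sum.inr m) (Sum.inr m')
      fun h => hm (Sum.inr_injective h), fun m => hQ.e0 _⟩
  have hnotpD : (∀ i, ¬ ‖ι (ev i₀ hi (π i))‖ < 1) → ¬ ‖ι (ev i₀ hi (pD π e))‖ < 1 := by
    intro h1
    rw [iota_ev]
    refine Pool.Agent.Y363.CT.SELC.not_lt_prod (iota_sq' hi ι) (fun i => ?_) _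
    have h2 := h1 i
    rwa [iota_ev] at h2
  by_cases hp3 : p = 3
  · subst hp3
    obtain ⟨R, hR'⟩ := three hR hκ (Sum.elim x fun j => -x j) hpD0 hT (prod_form hπ _) h9
      inferInstance ι
    obtain ⟨P, hP⟩ := Pool.Agent.Y809.CT.local_p hD hi hu ha hg ι R hR'
    exact ⟨P, fun τ σ h1 _ => hP τ σ h1⟩
  by_cases hj : ∃ i, ‖ι (ev i₀ hi (π i))‖ < 1
  · obtain ⟨i, hi'⟩ := hj
    obtain ⟨P, hP⟩ := Pool.Agent.Y809.CT.local_p hD hi hu ha hg ι 0 (by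
      intro τ σ hc
      have h1 := dec_zero (hπ.pq i) (B := ∏ m, Sum.elim ρ (fun j => star (ρ j)) m ^
        (Sum.elim x (fun j => -x j) m).val) (by
          intro h2
          obtain ⟨m, -, h3⟩ := ((hπ.pq i).prime.dvd_finsetProd_iff _).1 h2
          exact hQ.nd (Sum.inr m) (Sum.inl i) (by simp) ((hπ.pq i).prime.dvd_of_dvd_pow h3))
        (hx i) (kc_lin (p0 hR) hκ _) ι hi' hc
      have h2 : (∑ m, Sum.elim x (fun j => -x j) m * κ m σ) = 0 := h1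
      show jj (iota_sq' hi ι) (a σ) (pm (lh τ) 0) - 0 =
        tt _ (∑ m, Sum.elim x (fun j => -x j) m * κ m σ)
      rw [h2, tt_zero, Pool.Agent.Y715.T.Df.pm_zero, Pool.Agent.Y155.CT.jj_zero, sub_zero])
    exact ⟨P, fun τ σ h1 _ => hP τ σ h1⟩
  push Not at hj
  have hj' : ∀ i, ¬ ‖ι (ev i₀ hi (π i))‖ < 1 := fun i => not_lt.2 (hj i)
  by_cases hm : ∃ m, ‖ι (ev i₀ hi (Sum.elim ρ (fun j => star (ρ j)) m))‖ < 1
  swap
  · push Not at hm
    obtain ⟨R, hR'⟩ := good (p0 hR) hκ (Sum.elim x fun j => -x j) hpD0 hT hp3 ι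
      (fun m _ => not_lt.2 (hm m)) (hnotpD hj')
    obtain ⟨P, hP⟩ := Pool.Agent.Y809.CT.local_p hD hi hu ha hg ι R hR'
    exact ⟨P, fun τ σ h1 _ => hP τ σ h1⟩
  obtain ⟨m, hm⟩ := hm
  -- the index
  let jm : Fin k := Sum.elim id id m
  obtain ⟨c, hcd⟩ : ∃ c : ZMod 3, c = Sum.elim x (fun j => -x j) m := ⟨_, rfl⟩
  let d : Fin k ⊕ Fin k → ZMod 3 := Sum.elim (Pi.single jm 1) (Pi.single jm 1)
  let f' : Fin k ⊕ Fin k → ZMod 3 := fun n => Sum.elim x (fun j => -x j) n - c * d n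
  have hdm : d m = 1 := by
    rcases m with j | j
    · exact Pi.single_eq_same j 1
    · exact Pi.single_eq_same j 1
  have hf'm : f' m = 0 := by
    show _ - c * d m = 0
    rw [hdm, hcd, mul_one, sub_self]
  have hIs := iota_sq' hi ι
  have hm' := hm
  rw [iota_ev] at hm'
  obtain ⟨R, hR'⟩ := good (p0 hR) hκ f' hpD0 hT hp3 ι (by
    intro n hn h1
    have hne : n ≠ m := by
      rintro rfl
      exact hn hf'm
    apply hR.nd n m hne
    rw [dvd_iff hIs (hR.pq m).prime hm', ← iota_ev]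
    exact h1) (hnotpD hj')
  have hss : ¬ Sum.elim ρ (fun j => star (ρ j)) m ∣ star (Sum.elim ρ (fun j => star (ρ j)) m) := by
    rcases m with j | j
    · exact hR.nd (Sum.inr j) (Sum.inl j) (by simp)
    · show ¬ star (ρ j) ∣ star (star (ρ j))
      rw [star_star]
      exact hR.nd (Sum.inl j) (Sum.inr j) (by simp)
  have hfix := fix_split (hi := hi) (hR.pq m).prime hss ι hm
  have hv : (ι u) ^ 3 = (D : PadicAlgCl p) := by rw [← map_pow, hu, map_intCast]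
  -- the character of `ℓ_j`
  have hsum : ∀ σ : GK i₀, ∑ n, d n * κ n σ = κ (Sum.inl jm) σ + κ (Sum.inr jm) σ := by
    intro σ
    rw [Fintype.sum_sum_type]
    congr 1
    · rw [Finset.sum_eq_single jm]
      · show (Pi.single jm 1 : Fin k → ZMod 3) jm * _ = _
        rw [Pi.single_eq_same, one_mul]
      · intro n _ hn
        show (Pi.single jm 1 : Fin k → ZMod 3) n * _ = _
        rw [Pi.single_eq_of_ne hn, zero_mul]
      · intro h
        exact absurd (Finset.mem_univ _) h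
    · rw [Finset.sum_eq_single jm]
      · show (Pi.single jm 1 : Fin k → ZMod 3) jm * _ = _
        rw [Pi.single_eq_same, one_mul]
      · intro n _ hn
        show (Pi.single jm 1 : Fin k → ZMod 3) n * _ = _
        rw [Pi.single_eq_of_ne hn, zero_mul]
      · intro h
        exact absurd (Finset.mem_univ _) h
  have hal : ∀ σ : GK i₀, σ (s jm) = s jm → κ (Sum.inl jm) σ + κ (Sum.inr jm) σ = 0 := by
    intro σ hσ
    have h1 := kc_mul (p0 hR (Sum.inl jm)) (p0 hR (Sum.inr jm)) (hκ (Sum.inl jm))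
      (hκ (Sum.inr jm)) (s jm) (hs jm) σ
    rw [hσ] at h1
    have hs0 : s jm ≠ 0 := root_ne (hi := hi)
      (mul_ne_zero (p0 hR (Sum.inl jm)) (p0 hR (Sum.inr jm))) (hs jm)
    have h2 : i₀ ^ (κ (Sum.inl jm) σ + κ (Sum.inr jm) σ).val = 1 := by
      apply mul_right_cancel₀ hs0
      rw [one_mul]
      exact h1.symm
    have h3 := pow_val_eq_one hi _ h2
    rwa [ZMod.natCast_zmod_val] at h3
  refine ⟨Ph hD hv R, fun τ σ h1 h2 => ?_⟩
  obtain ⟨σ', hσ'⟩ := exists_cmp ι τ (hfix τ)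
  have h3 : rs σ' = σ := by
    apply AlgEquiv.ext
    intro y
    apply ι.injective
    exact (hσ' y).symm.trans (h1 y)
  have h4 : g σ = ∑ n, f' n * κ n σ' := by
    rw [← h3]
    have h5 : g (rs σ') = ∑ m, Sum.elim x (fun j => -x j) m * κ m σ' := hg.res σ'
    rw [h5]
    have h6 : ∑ n, f' n * κ n σ' = (∑ m, Sum.elim x (fun j => -x j) m * κ m σ') -
        c * ∑ n, d n * κ n σ' := by
      rw [Finset.mul_sum, ← Finset.sum_sub_distrib]
      refine Finset.sum_congr rfl fun n _ => ?_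
      show (_ - c * d n) * _ = _
      ring
    rw [h6, hsum, hal σ' (by
      have h7 := h2 jm
      rw [← h3] at h7
      exact h7), mul_zero, sub_zero]
  rw [Pool.Agent.Y809.CT.ac_tt hD hu hv ι, h4, act_Ph_loc hD hi ha ι hv hσ', ← map_sub]
  congr 1
  exact (hR' τ σ' hσ').symm

end Q155.BS
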