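import Pool.Agent.Q155.BK.Tw
import Pool.Agent.Y811.CTK.PLC
import Pool.Agent.Y809.CT.Shq

/-!
# The local conditions at the places of a number field
-/

set_option autoImplicit false
set_option linter.unusedSectionVars false

open scoped Classical

namespace Q155.BS

open WeierstrassCurve NumberField IsDedekindDomain
open Pool.Agent.TH841.SH.D (Gal act Pt LocTriv)
open Pool.Agent.TH841.NF (Sc tm sc_any sc_any' Fx cF cQ cQ_fx cF_cQ tr_act any_surj tm_inj tm_act
  act_tm tm_tm tm_id e_cF)
open Pool.Agent.Y715.T.Nr (Au)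
open Pool.Agent.Y715.T.Df (lh)
open Q155.BK (Qb bk sc_base)

variable {F : Type} [Field F] [NumberField F] {W : WeierstrassCurve ℚ}

/-- the finite places -/
theorem loc_fin (e : AlgebraicClosure F ≃+* Qb) {c : Gal ℚ → Pt W Qb}
    (h : ∀ (p : ℕ) [Fact p.Prime] (ι : Qb →ₐ[ℚ] PadicAlgCl p), ∃ P : Pt W (PadicAlgCl p),
      ∀ (τ : Au p) (σ : Gal ℚ), Fx e σ → (∀ y, τ (ι y) = ι (σ y)) →
        act W ι (c σ) = act W (lh τ) P - P)
    (v : HeightOneSpectrum (𝓞 F)) :
    LocTriv (W.baseChange F) (v.adicCompletion F) (fun σ => bk e (c (cQ e σ))) := by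
  obtain ⟨p, hp, Φ, hΦ⟩ := Pool.Agent.Y811.CTK.t_PLC F v
  intro ι'
  let K := v.adicCompletion F
  let ι : Qb →ₐ[ℚ] PadicAlgCl p :=
    { toRingHom := (Φ : AlgebraicClosure K →+* PadicAlgCl p).comp
        ((ι' : AlgebraicClosure F →+* AlgebraicClosure K).comp
        (e.symm : Qb →+* AlgebraicClosure F))
      commutes' := fun x => DFunLike.congr_fun (Subsingleton.elim
        (((Φ : AlgebraicClosure K →+* PadicAlgCl p).comp
        ((ι' : AlgebraicClosure F →+* AlgebraicClosure K).comp
          (e.symm : Qb →+* AlgebraicClosure F))).comp (algebraMap ℚ Qb))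
        (algebraMap ℚ (PadicAlgCl p))) x }
  obtain ⟨P, hP⟩ := h p ι
  have S2 : Sc (Φ.symm : PadicAlgCl p →+* AlgebraicClosure K) 1 (W.baseChange (PadicAlgCl p))
    ((W.baseChange F).baseChange (AlgebraicClosure K)) := sc_any' (sc_base W) _
  have S3 : Sc ((ι' : AlgebraicClosure F →+* AlgebraicClosure K).comp
      (e.symm : Qb →+* AlgebraicClosure F)) 1 (W.baseChange Qb)
    ((W.baseChange F).baseChange (AlgebraicClosure K)) := sc_any' (sc_base W) _
  have a1 : ∀ P : Pt W Qb, tm S2 (act W ι P) = tm S3 P := fun P =>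
    act_tm ι S2 S3 (fun x => Φ.symm_apply_apply _) P
  have a2 : ∀ P : Pt W Qb, act (W.baseChange F) ι' (bk e P) = tm S3 P := fun P =>
    tm_act _ ι' S3 (fun x => rfl) (map_one ι').symm P
  refine ⟨tm S2 P, fun τ σ hτ => ?_⟩
  obtain ⟨τ', hτ'⟩ := hΦ τ
  have h1 := hP τ' (cQ e σ) (cQ_fx e σ) (fun x => by
    show τ' (Φ (ι' (e.symm x))) = Φ (ι' (e.symm (e (σ (e.symm x)))))
    rw [e.symm_apply_apply, ← hτ', hτ])
  have S4 : Sc (((τ : AlgebraicClosure K ≃+* AlgebraicClosure K) : AlgebraicClosure K →+*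
      AlgebraicClosure K).comp (Φ.symm : PadicAlgCl p →+* AlgebraicClosure K)) 1
      (W.baseChange (PadicAlgCl p))
      ((W.baseChange F).baseChange (AlgebraicClosure K)) := sc_any' (sc_base W) _
  have a3 : tm S2 (act W (lh τ') P) = tm S4 P :=
    act_tm _ S2 S4 (fun x => by
      show Φ.symm (τ' x) = τ (Φ.symm x)
      apply Φ.injective
      rw [Φ.apply_symm_apply, hτ', Φ.apply_symm_apply]) _
  have a4 : act (W.baseChange F) (τ.toAlgHom.restrictScalars F) (tm S2 P) = tm S4 P :=
    tm_act _ _ S4 (fun x => rfl) (map_one _).symm _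
  have h2 := congrArg (tm S2) h1
  exact (a2 _).trans ((a1 _).symm.trans (h2.trans ((map_sub (tm S2) _ _).trans
    (congrArg₂ _ (a3.trans a4.symm) rfl))))

/-- the absolute Galois groups of the completions at the infinite places have exponent two -/
theorem inf_sq (v : InfinitePlace F) (τ : Gal v.Completion) (x : AlgebraicClosure v.Completion) :
    τ (τ x) = x := by
  rcases v.isReal_or_isComplex with hv | hv
  · let K := v.Completion
    let ψ : ℝ ≃+* K := (InfinitePlace.Completion.ringEquivRealOfIsReal hv).symm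
    letI : Algebra ℝ K := (ψ : ℝ →+* K).toAlgebra
    haveI : Algebra.IsAlgebraic ℝ K := by
      refine ⟨fun y => ?_⟩
      obtain ⟨z, hz⟩ := ψ.surjective y
      rw [← hz]
      exact isAlgebraic_algebraMap z
    haveI : Algebra.IsAlgebraic ℝ (AlgebraicClosure K) := Algebra.IsAlgebraic.trans ℝ K _
    haveI : IsAlgClosure ℝ (AlgebraicClosure K) := ⟨inferInstance, inferInstance⟩
    have hC : IsAlgClosure ℝ ℂ := ⟨inferInstance, inferInstance⟩
    let τ' : AlgebraicClosure K ≃ₐ[ℝ] AlgebraicClosure K := τ.restrictScalars ℝ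
    let e : AlgebraicClosure K ≃ₐ[ℝ] ℂ := IsAlgClosure.equiv ℝ (AlgebraicClosure K) ℂ
    let f : ℂ →ₐ[ℝ] ℂ := ((e.symm.trans τ').trans e).toAlgHom
    have hf : ∀ z, f z = e (τ (e.symm z)) := fun z => rfl
    have hff : ∀ z, f (f z) = z := by
      rcases Complex.real_algHom_eq_id_or_conj f with h | h
      · intro z
        rw [h]
        rfl
      · intro z
        rw [h]
        exact Complex.conj_conj z
    have h1 := hff (e x)
    rw [hf, hf, e.symm_apply_apply, e.symm_apply_apply] at h1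
    exact e.injective h1
  · have hcl : IsAlgClosed v.Completion :=
      IsAlgClosed.of_ringEquiv ℂ v.Completion
        (InfinitePlace.Completion.ringEquivComplexOfIsComplex hv).symm
    have hs : Function.Surjective (algebraMap v.Completion (AlgebraicClosure v.Completion)) :=
      IsAlgClosed.algebraMap_bijective_of_isIntegral.2
    obtain ⟨y, rfl⟩ := hs x
    rw [AlgEquiv.commutes, AlgEquiv.commutes]

/-- the infinite places -/
theorem loc_infin (e : AlgebraicClosure F ≃+* Qb) {c : Gal ℚ → Pt W Qb}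
    (h0 : ∀ σ : Gal ℚ, (∀ x, σ (σ x) = x) → c σ = 0) (v : InfinitePlace F) :
    LocTriv (W.baseChange F) v.Completion (fun σ => bk e (c (cQ e σ))) := by
  intro ι
  refine ⟨0, fun τ σ hτ => ?_⟩
  have h1 : ∀ x, σ (σ x) = x := by
    intro x
    apply (ι : AlgebraicClosure F →+* AlgebraicClosure v.Completion).injective
    show ι (σ (σ x)) = ι x
    rw [← hτ, ← hτ, inf_sq]
  have h2 : c (cQ e σ) = 0 := h0 _ fun x => by
    show e (σ (e.symm (e (σ (e.symm x))))) = x
    rw [e.symm_apply_apply, h1, e.apply_symm_apply]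
  show act (W.baseChange F) ι (bk e (c (cQ e σ))) = _
  rw [h2, map_zero, map_zero, map_zero, sub_zero]

end Q155.BS
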