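import Pool.Agent.Q155.BS.Loc
import Pool.Agent.Q155.BS.Inj
import Pool.Agent.Q155.BS.Ari
import Pool.Agent.Q155.BS.Plc
import Pool.Agent.Q283.MS.Sha
import Pool.Agent.Y319.CT.CONVQ

/-!
# A lower bound for the Tate-Shafarevich group
-/

set_option autoImplicit false
set_option linter.unusedSectionVars false
set_option linter.unusedVariables false

open scoped Classical

namespace Q155.BS

open WeierstrassCurve NumberField IsDedekindDomain
open Pool.Agent.TH841.SH.D (Gal)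
open Pool.Agent.TH841.NF (Sc tm sc_any sc_any' Fx cF cQ cQ_fx cF_cQ tr_act any_surj tm_inj tm_act
  act_tm tm_tm tm_id e_cF)
open Pool.Agent.Y692.QS (Ei w nr)
open Pool.Agent.Y692.CT (PD ac Ph act_Ph act_Ph_loc rs rs_apply rs_hom rs_ex)
open Pool.Agent.Y715.T.Gi Pool.Agent.Y715.T.Nr Pool.Agent.Y715.T.Df Pool.Agent.Y715.T.Ell
open Pool.Agent.Y715.T.Rec (cs)
open Pool.Agent.Y715.T.RecG (Pq)
open Pool.Agent.Y715.T.Sel (kc_mul kc_one kc_congr kc_pow kc_uniq kc_exp ex_root root_ne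
  iota_ev odd_of not_dvd_of_unr)
open Pool.Agent.Y48.CT.SEL (p0 pr0 esq prod_form cf_prod not_assoc_lam)
open Pool.Agent.Y703.CT
open Pool.Agent.Y379.CT (pow_val_eq_one)
open Pool.Agent.Y155.CT (ah_apply)
open Q283.MC (Gam ip3 SS Hk H0 mem_iff steps base)
open Q155.BK (Qb bk sc_base T_bk bk_act cQ_cF cH cH_cont cQ_mul)

/-- sums of extended characters -/
theorem ext_sum {i₀ : QB} {k : ℕ} {h : Fin k → GK i₀ → ZMod 3} {g : Fin k → Gam → ZMod 3}
    (hg : ∀ j, Ext (h j) (g j)) (x : Fin k → ZMod 3) :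
    Ext (fun σ => ∑ j, x j * h j σ) (fun σ => ∑ j, x j * g j σ) := by
  refine ⟨?_, fun σ τ => ?_, fun σ => ?_⟩
  · have h1 : ∀ S : Finset (Fin k), IsLocallyConstant fun σ : Gam => ∑ j ∈ S, x j * g j σ := by
      intro S
      induction S using Finset.induction_on with
      | empty =>
        simp only [Finset.sum_empty]
        exact IsLocallyConstant.const 0
      | insert j S hj ih =>
        simp only [Finset.sum_insert hj]
        exact ((hg j).cont.comp fun c => x j * c).add ih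
    exact h1 Finset.univ
  · rw [← Finset.sum_add_distrib]
    refine Finset.sum_congr rfl fun j _ => ?_
    rw [(hg j).mul]
    ring
  · refine Finset.sum_congr rfl fun j _ => ?_
    rw [(hg j).res]

/-- homomorphisms to the Tate-Shafarevich group -/
theorem hom_sha {F : Type} [Field F] [NumberField F] (W : WeierstrassCurve F) {A : Type}
    [AddCommGroup A] (f : A → Pool.Agent.TH841.SH.D.Coch W)
    (hadd : ∀ y z σ, f (y + z) σ = f y σ + f z σ)
    (hsha : ∀ y, Pool.Agent.TH841.NF.D.IsShaCoc W (f y))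
    (hinj : ∀ y, Pool.Agent.TH841.SH.D.IsCob W (f y) → y = 0) :
    ∃ H : A →+ Pool.Agent.TH841.NF.D.Sha W, Function.Injective H := by
  let K : A →+ Pool.Agent.TH841.NF.D.shaCoc W :=
    AddMonoidHom.mk' (fun y => ⟨f y, hsha y⟩) fun y z => Subtype.ext (funext fun σ => hadd y z σ)
  let H : A →+ Pool.Agent.TH841.NF.D.Sha W :=
    (QuotientAddGroup.mk' ((Pool.Agent.TH841.SH.D.cob W).addSubgroupOf
      (Pool.Agent.TH841.NF.D.shaCoc W))).comp K
  refine ⟨H, (injective_iff_map_eq_zero H).2 fun y hy => hinj y ?_⟩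
  have h1 := (QuotientAddGroup.eq_zero_iff (K y)).1 hy
  rw [AddSubgroup.mem_addSubgroupOf] at h1
  exact h1

/-- **The lower bound.** -/
theorem sha_big {F : Type} [Field F] [NumberField F] {k : ℕ} {l : Fin k → ℕ}
    (hl : ∀ j, (l j).Prime) (hl3 : ∀ j, l j % 3 = 1) (hinj : Function.Injective l)
    {D : ℕ} (hD : Cls D) (hnd : ∀ j, ¬ l j ∣ D)
    (hfin : ∀ e : Fin k → ZMod 3,
      Finite (EQ (WD ((D * ∏ j, l j ^ (e j).val : ℕ) : ℤ))).toAffine.Point)
    {θ : Fin k → F} (hθ : ∀ j, θ j ^ 3 = (l j : F))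
    (hgen : IntermediateField.adjoin ℚ ({x : F | x ^ 3 = 1} ∪ Set.range θ) = ⊤) :
    ∃ f : (Fin (k - D.primeFactors.card) → ZMod 3) →+
      Pool.Agent.TH841.NF.D.Sha ((EQ (WD (D : ℤ))).baseChange F), Function.Injective f := by
  have hD0 : D ≠ 0 := hD.1.1
  have hDZ : ((D : ℕ) : ℤ) ≠ 0 := by exact_mod_cast hD0
  -- the primes
  obtain ⟨n, π, e, hπ, hDp⟩ := Pool.Agent.Y274.CT.t_exi D hD.1
  have h9 := Pool.Agent.Y319.CT.nr_nine hD hDp
  have hJ : Nonempty (Fin n) := by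
    have h1 := Pool.Agent.Y274.CT.t_cnt D hD (Fin n) π e hπ hDp
    rw [Fintype.card_fin] at h1
    have h2 : 0 < D.primeFactors.card := by
      obtain ⟨q, hq, -, hqD, -⟩ := hD.2.2.2
      exact Finset.card_pos.2 ⟨q, Nat.mem_primeFactors.2 ⟨hq, hqD, hD0⟩⟩
    exact ⟨⟨0, by omega⟩⟩
  have hdvd : ∀ i, π i ∣ (D : Ei) := by
    intro i
    have h1 : π i ∣ pD π e := by
      refine (dvd_pow_self (π i) ?_).trans (Finset.dvd_prod_of_mem (fun j => π j ^ (e j).val)
        (Finset.mem_univ i))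
      rw [Ne, ZMod.val_eq_zero]
      exact hπ.e0 i
    rcases hDp with h | h
    · rwa [h]
    · rw [h]
      exact (dvd_neg).2 h1
  choose ρ hρ hnr using fun j => exists_rho (hl j) (hl3 j)
  have hQ := dt_all hπ hdvd hl hl3 hinj hnd hρ hnr
  have hR : Dt (Sum.elim ρ fun j => star (ρ j)) (fun _ => 1) :=
    ⟨fun m => hQ.pq (Sum.inr m), fun m m' hm => hQ.nd (Sum.inr m) (Sum.inr m')
      fun h => hm (Sum.inr_injective h), fun _ => one_ne_zero⟩
  have hn1 : ∀ i j, ¬ π i ∣ ρ j := fun i j => hQ.nd (Sum.inr (Sum.inl j)) (Sum.inl i) (by simp)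
  have hn2 : ∀ i j, ¬ π i ∣ star (ρ j) := fun i j =>
    hQ.nd (Sum.inr (Sum.inr j)) (Sum.inl i) (by simp)
  obtain ⟨φ, hφi, hφ⟩ := exists_kerF (ρ := ρ) hπ.pq hD0 hdvd hn1 hn2
  -- the roots
  obtain ⟨i₀, hi⟩ : ∃ i₀ : QB, i₀ ^ 2 + i₀ + 1 = 0 := by
    obtain ⟨z, hz⟩ := IsAlgClosed.exists_pow_nat_eq (-3 : QB) (n := 2) (by norm_num)
    refine ⟨(z - 1) / 2, ?_⟩
    linear_combination (1 / 4 : QB) * hz
  have hne : pD π e ≠ 0 := pr0 hπ _
  obtain ⟨u', a, hT⟩ := Pool.Agent.Y319.CT.exists_tw hi hne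
  obtain ⟨u, hu, ha⟩ : ∃ u : QB, u ^ 3 = ((D : ℤ) : QB) ∧
      ∀ σ : GK i₀, σ u = i₀ ^ (-a σ).val * u := by
    have e1 : ∀ x : Ei, (D : Ei) = x → ev i₀ hi x = ((D : ℤ) : QB) := by
      intro x hx
      rw [← hx, map_natCast]
      push_cast
      rfl
    rcases hDp with h | h
    · exact ⟨u', by rw [hT.cube, e1 _ h], hT.act⟩
    · refine ⟨-u', ?_, fun σ => ?_⟩
      · rw [Odd.neg_pow (by decide), hT.cube, ← map_neg, e1 _ h]
      · rw [map_neg, hT.act σ]
        ring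
  -- the characters
  choose κ hκ using fun m => exists_kc (hi := hi) (p0 hR m)
  choose κ' hκ' using fun i => exists_kc (hi := hi) (p0 hπ i)
  have haκ : ∀ σ, -a σ = ∑ i, e i * κ' i σ := by
    intro σ
    exact kc_uniq hne (kc_of hi (root_ne (hi := hi) hne hT.cube) hT.cube hT.act)
      (kc_lin (p0 hπ) hκ' e) σ
  have hQK : ∀ m, Kc hi (Sum.elim π (Sum.elim ρ fun j => star (ρ j)) m) (Sum.elim κ' κ m) := by
    rintro (i | m)
    · exact hκ' i
    · exact hκ m
  have key : ∀ (y : Fin n → ZMod 3) (z z' : Fin k → ZMod 3),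
      (∀ σ, (∑ i, y i * κ' i σ) + ((∑ j, z j * κ (Sum.inl j) σ) + ∑ j, z' j * κ (Sum.inr j) σ)
        = 0) → y = 0 ∧ z = 0 ∧ z' = 0 := by
    intro y z z' h0
    have h1 := lin_inj hQ hQK (f := Sum.elim y (Sum.elim z z')) (fun σ => by
      rw [Fintype.sum_sum_type, Fintype.sum_sum_type]
      exact h0 σ)
    refine ⟨funext fun i => congrFun h1 (Sum.inl i), funext fun i => congrFun h1
      (Sum.inr (Sum.inl i)), funext fun i => congrFun h1 (Sum.inr (Sum.inr i))⟩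
  choose g hg using fun j => Pool.Agent.Y894.CT.t_EXT i₀ hi (ρ j * star (ρ j) ^ 2)
    (ρ j * star (ρ j)) (mul_ne_zero (p0 hR (Sum.inl j)) (pow_ne_zero 2 (p0 hR (Sum.inr j))))
    (by rw [star_mul, star_pow, star_star]; ring) _
    (kc_mul (p0 hR (Sum.inl j)) (pow_ne_zero 2 (p0 hR (Sum.inr j))) (hκ (Sum.inl j))
      (kc_pow (p0 hR (Sum.inr j)) (hκ (Sum.inr j)) 2))
  let G : (Fin k → ZMod 3) → Gam → ZMod 3 := fun x σ => ∑ j, x j * g j σ
  have hG : ∀ x, Ext (i₀ := i₀) (fun σ => ∑ m, Sum.elim x (fun j => -x j) m * κ m σ) (G x) := by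
    intro x
    have h1 := ext_sum hg x
    have e1 : (fun σ : GK i₀ => ∑ m, Sum.elim x (fun j => -x j) m * κ m σ) =
        fun σ => ∑ j, x j * (κ (Sum.inl j) σ + ((2 : ℕ) : ZMod 3) * κ (Sum.inr j) σ) := by
      funext σ
      rw [Fintype.sum_sum_type, ← Finset.sum_add_distrib]
      refine Finset.sum_congr rfl fun j _ => ?_
      show x j * κ (Sum.inl j) σ + -x j * κ (Sum.inr j) σ = _
      have h3 : ((2 : ℕ) : ZMod 3) = -1 := by decide
      rw [h3]
      ring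
    rw [e1]
    exact h1
  have hGadd : ∀ x y σ, G (x + y) σ = G x σ + G y σ := by
    intro x y σ
    show ∑ j, (x + y) j * g j σ = _
    rw [← Finset.sum_add_distrib]
    refine Finset.sum_congr rfl fun j _ => ?_
    rw [Pi.add_apply, add_mul]
  -- the embedding
  obtain ⟨E⟩ : Nonempty (AlgebraicClosure F ≃+* QB) := by
    have h1 : Algebra.IsAlgebraic ℚ (AlgebraicClosure F) := Algebra.IsAlgebraic.trans ℚ F _
    have h2 : IsAlgClosure ℚ (AlgebraicClosure F) := ⟨inferInstance, h1⟩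
    exact ⟨(IsAlgClosure.equiv ℚ (AlgebraicClosure F) (AlgebraicClosure ℚ)).toRingEquiv⟩
  let s : Fin k → QB := fun j => E (algebraMap F _ (θ j))
  have hs3 : ∀ j, s j ^ 3 = ((l j : ℕ) : QB) := by
    intro j
    show (E (algebraMap F _ (θ j))) ^ 3 = _
    rw [← map_pow, ← map_pow, hθ, map_natCast, map_natCast]
  have hs : ∀ j, s j ^ 3 = ev i₀ hi (ρ j * star (ρ j)) := by
    intro j
    rw [hs3, rho_mul (hnr j), map_natCast]
  have hs0 : ∀ j, s j ≠ 0 := fun j => root_ne (hi := hi)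
    (mul_ne_zero (p0 hR (Sum.inl j)) (p0 hR (Sum.inr j))) (hs j)
  have hfx : ∀ σ : Gam, Fx E σ → ∀ j, σ (s j) = s j := fun σ hσ j => hσ (θ j)
  -- the cochains
  let c : (Fin k → ZMod 3) → Gam → PD D QB := fun x σ => Ph hDZ hu (tt QB (G x σ))
  let f : (Fin k → ZMod 3) → Pool.Agent.TH841.SH.D.Coch ((EQ (WD (D : ℤ))).baseChange F) :=
    fun x σ => bk E (c x (cQ E σ))
  have hcm : ∀ x (σ τ : Gam), c x (σ * τ) = c x σ + c x τ := by
    intro x σ τ
    show Ph hDZ hu (tt QB (G x (σ * τ))) = Ph hDZ hu (tt QB (G x σ)) + Ph hDZ hu (tt QB (G x τ))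
    rw [(hG x).mul, tt_add, map_add]
  have hca : ∀ x (σ τ : Gam), ac D σ.toAlgHom (c x τ) = c x τ := fun x σ τ =>
    Pool.Agent.Y809.CT.ac_tt hDZ hu hu σ.toAlgHom _
  have hcadd : ∀ x y (σ : Gam), c (x + y) σ = c x σ + c y σ := by
    intro x y σ
    show Ph hDZ hu (tt QB (G (x + y) σ)) = Ph hDZ hu (tt QB (G x σ)) + Ph hDZ hu (tt QB (G y σ))
    rw [hGadd, tt_add, map_add]
  have hcoc : ∀ x, Pool.Agent.TH841.SH.D.IsCoc ((EQ (WD (D : ℤ))).baseChange F) (f x) := by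
    intro x
    refine ⟨((hG x).cont.comp_continuous (cH_cont E)).comp
      (fun z => bk (F := F) E (Ph hDZ hu (tt QB z))), fun σ τ => ?_⟩
    exact (congrArg (fun z => bk (F := F) E (c x z)) (cQ_mul E σ τ)).trans
      ((congrArg (bk (F := F) E) (hcm x (cQ E σ) (cQ E τ))).trans
        ((map_add (bk (F := F) E) _ _).trans (congrArg₂ _ rfl
          ((congrArg (bk (F := F) E) (hca x (cQ E σ) (cQ E τ))).symm.trans
            (bk_act E σ (c x (cQ E τ)))))))
  have hG1 : ∀ x (σ : Gam), (∀ y, σ (σ y) = y) → G x σ = 0 := by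
    intro x σ hσ
    have h1 : σ * σ = 1 := AlgEquiv.ext hσ
    have h2 := (hG x).mul 1 1
    rw [mul_one] at h2
    have h3 : G x 1 = 0 := left_eq_add.1 h2
    have h4 := (hG x).mul σ σ
    rw [h1, h3] at h4
    revert h4
    generalize G x σ = z
    revert z
    decide
  have hsha : ∀ y, Pool.Agent.TH841.NF.D.IsShaCoc ((EQ (WD (D : ℤ))).baseChange F)
      (f (φ y)) := by
    intro y
    refine ⟨hcoc _, fun v => ?_, fun v => ?_⟩
    · refine loc_fin E (c := c (φ y)) (fun p _ ι => ?_) v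
      obtain ⟨P, hP⟩ := local_all hπ hQ h9 hDZ hu ha hT hκ (φ y) (fun i => by
        rw [cs_lamF (hπ.pq i) (hn1 i) (hn2 i), hφ]) (hG _) hs ι
      exact ⟨P, fun τ σ h1 h2 => hP τ σ h2 (hfx σ h1)⟩
    · refine loc_infin E (c := c (φ y)) (fun σ hσ => ?_) v
      show Ph hDZ hu (tt QB (G (φ y) σ)) = 0
      rw [hG1 _ σ hσ, tt_zero, map_zero]
  -- the homomorphism
  refine hom_sha _ (fun y => f (φ y)) (fun y z σ => ?_) hsha fun y hy => ?_
  · exact (congrArg (fun v => bk (F := F) E (c v (cQ E σ))) (map_add φ y z)).trans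
      ((congrArg (bk (F := F) E) (hcadd (φ y) (φ z) (cQ E σ))).trans (map_add (bk (F := F) E) _ _))
  obtain ⟨P, hP⟩ := hy
  let T := tm (sc_any (sc_base (F := F) (EQ (WD (D : ℤ)))) (E : AlgebraicClosure F →+* Qb))
  obtain ⟨P1, hP1⟩ : ∃ P1 : PD D QB, ∀ σ : Gam, Fx E σ →
      c (φ y) σ = ac D σ.toAlgHom P1 - P1 := by
    refine ⟨T P, fun σ hσ => ?_⟩
    have h2 : bk (F := F) E (c (φ y) (cQ E (cF E σ))) =
      Pool.Agent.TH841.SH.D.act _ (cF E σ).toAlgHom P - P := hP (cF E σ)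
    rw [cQ_cF E hσ] at h2
    exact (T_bk (F := F) E (c (φ y) σ)).symm.trans ((congrArg T h2).trans
      ((map_sub T _ _).trans (congrArg₂ _ (tr_act (sc_base (F := F) _) E hσ P) rfl)))
  -- the subgroup
  let S : Set (GK i₀) := {σ | ∀ j, κ (Sum.inl j) σ + κ (Sum.inr j) σ = 0}
  have hals : ∀ (σ : GK i₀) j, σ (s j) =
      i₀ ^ (κ (Sum.inl j) σ + κ (Sum.inr j) σ).val * s j := fun σ j =>
    kc_mul (p0 hR (Sum.inl j)) (p0 hR (Sum.inr j)) (hκ (Sum.inl j)) (hκ (Sum.inr j)) (s j)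
      (hs j) σ
  have hSs : ∀ σ : GK i₀, σ ∈ S ↔ ∀ j, σ (s j) = s j := by
    intro σ
    refine forall_congr' fun j => ?_
    constructor
    · intro h1
      rw [hals, h1, ZMod.val_zero, pow_zero, one_mul]
    · intro h1
      rw [hals] at h1
      have h2 : i₀ ^ (κ (Sum.inl j) σ + κ (Sum.inr j) σ).val = 1 :=
        mul_right_cancel₀ (hs0 j) (by rw [h1, one_mul])
      have h3 := pow_val_eq_one hi _ h2
      rwa [ZMod.natCast_zmod_val] at h3
  have hSF : ∀ σ ∈ S, Fx E (rs σ) := by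
    intro σ hσ x
    have hsj := (hSs σ).1 hσ
    have hy : x ∈ (⊤ : IntermediateField ℚ F) := trivial
    rw [← hgen] at hy
    show σ (E (algebraMap F _ x)) = E (algebraMap F _ x)
    refine IntermediateField.adjoin_induction ℚ
      (p := fun y _ => σ (E (algebraMap F _ y)) = E (algebraMap F _ y)) ?_ ?_ ?_ ?_ ?_ hy
    · rintro y (hy | ⟨j, rfl⟩)
      · have hy3 : y ^ 3 = 1 := hy
        obtain ⟨z, hz⟩ : ∃ z, z = E (algebraMap F _ y) := ⟨_, rfl⟩
        have h5 : z ^ 3 = 1 := by rw [hz, ← map_pow, ← map_pow, hy3, map_one, map_one]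
        rw [← hz]
        have h6 : (z - 1) * ((z - i₀) * (z - i₀ ^ 2)) = 0 := by
          linear_combination h5 + (-z ^ 2 + z) * hi + (z - 1) * ip3 hi
        rcases mul_eq_zero.1 h6 with h7 | h7
        · rw [sub_eq_zero.1 h7, map_one]
        · rcases mul_eq_zero.1 h7 with h8 | h8
          · rw [sub_eq_zero.1 h8, gk_fix]
          · rw [sub_eq_zero.1 h8, map_pow, gk_fix]
      · exact hsj j
    · intro q
      have h1 : E (algebraMap F _ (algebraMap ℚ F q)) = algebraMap ℚ QB q :=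
        DFunLike.congr_fun (Subsingleton.elim (((E : AlgebraicClosure F →+* QB).comp
          (algebraMap F (AlgebraicClosure F))).comp (algebraMap ℚ F)) (algebraMap ℚ QB)) q
      rw [h1]
      exact (rs σ).commutes q
    · intro x y _ _ hx hy
      rw [map_add, map_add, map_add, hx, hy]
    · intro x _ hx
      rw [map_inv₀, map_inv₀, map_inv₀, hx]
    · intro x y _ _ hx hy
      rw [map_mul, map_mul, map_mul, hx, hy]
  have hP2 : ∀ σ ∈ S, act hi a σ ((Ph hDZ hu).symm P1) - (Ph hDZ hu).symm P1 =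
      tt _ (∑ m, Sum.elim (φ y) (fun j => -φ y j) m * κ m σ) := by
    intro σ hσ
    apply (Ph hDZ hu).injective
    have h0 : ∑ m, Sum.elim (φ y) (fun j => -φ y j) m * κ m σ = G (φ y) (rs σ) :=
      ((hG (φ y)).res σ).symm
    rw [map_sub, ← act_Ph hDZ hi hu ha, AddEquiv.apply_symm_apply, h0]
    exact (hP1 (rs σ) (hSF σ hσ)).symm
  -- homomorphisms
  have hκm : ∀ m (σ τ : GK i₀), κ m (σ * τ) = κ m σ + κ m τ := fun m σ τ =>
    kc_hom (p0 hR m) (hκ m) σ τ
  have ham : ∀ σ τ : GK i₀, a (σ * τ) = a σ + a τ := Pool.Agent.Y155.CT.a_mul hne hT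
  have hαm : ∀ σ τ : GK i₀, (fun j => κ (Sum.inl j) (σ * τ) + κ (Sum.inr j) (σ * τ)) =
      (fun j => κ (Sum.inl j) σ + κ (Sum.inr j) σ) +
        fun j => κ (Sum.inl j) τ + κ (Sum.inr j) τ := by
    intro σ τ
    funext j
    rw [Pi.add_apply, hκm, hκm]
    ring
  have hne' : ∃ σ ∈ S, a σ ≠ 0 := by
    by_contra hcon
    push Not at hcon
    obtain ⟨d, hd⟩ := lin_ext (fun (σ : GK i₀) j => κ (Sum.inl j) σ + κ (Sum.inr j) σ) hαm a ham
      (fun σ hσ => hcon σ fun j => congrFun hσ j)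
    have h1 := key e d d (fun σ => by
      rw [← haκ, hd, ← Finset.sum_add_distrib, neg_add_eq_zero]
      refine Finset.sum_congr rfl fun j _ => ?_
      ring)
    obtain ⟨i⟩ := hJ
    exact hπ.e0 i (congrFun h1.1 i)
  have hun : u ^ 3 = ((D : ℕ) : QB) := by rw [hu]; push_cast; rfl
  have hu0 : u ≠ 0 := by
    rintro rfl
    rw [zero_pow (by norm_num)] at hun
    exact hD0 (by exact_mod_cast hun.symm)
  have hSS : (SS hi (Hk (H0 i₀) s) u : Set (Pt QB)).Finite := by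
    refine steps hi (fun σ hσ => hσ) k s l u D hu0 hs0 hun hs3 fun e' => ?_
    refine base hi (D := D * ∏ j, l j ^ (e' j).val) ?_ ?_ (hfin e')
    · have : D * ∏ j, l j ^ (e' j).val ≠ 0 :=
        mul_ne_zero hD0 (Finset.prod_ne_zero_iff.2 fun j _ => pow_ne_zero _ (hl j).ne_zero)
      exact_mod_cast this
    · rw [mul_pow, hun, ← Finset.prod_pow]
      push_cast
      congr 1
      refine Finset.prod_congr rfl fun j _ => ?_
      rw [← pow_mul, mul_comm, pow_mul, hs3]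
  have hAS : Finite (AS hi a S) := by
    refine (hSS.subset fun Q hQ => ?_).to_subtype
    rw [SetLike.mem_coe, mem_iff hi hDZ hu]
    rintro σ ⟨hσ1, hσ2⟩
    obtain ⟨σ', rfl⟩ := rs_ex hσ1
    have h1 : σ' ∈ S := (hSs σ').2 hσ2
    have h2 : ac D (gh σ') (Ph hDZ hu Q) = Ph hDZ hu Q := by
      rw [act_Ph hDZ hi hu ha]
      exact congrArg _ (hQ σ' h1)
    exact h2
  obtain ⟨c0, hc0⟩ := lastS hne' hAS hP2
  obtain ⟨d, hd⟩ := lin_ext (fun (σ : GK i₀) j => κ (Sum.inl j) σ + κ (Sum.inr j) σ) hαm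
    (fun σ => (∑ m, Sum.elim (φ y) (fun j => -φ y j) m * κ m σ) - c0 * a σ)
    (fun σ τ => by
      simp only [hκm, ham, mul_add, Finset.sum_add_distrib]
      ring)
    (fun σ hσ => by
      show _ - _ = _
      rw [hc0 σ fun j => congrFun hσ j, sub_self])
  have h1 := key (fun i => c0 * e i) (fun j => φ y j - d j) (fun j => -φ y j - d j) (fun σ => by
    have h2 := hd σ
    rw [Fintype.sum_sum_type] at h2
    have h3 := haκ σ
    have e1 : ∑ i, c0 * e i * κ' i σ = c0 * ∑ i, e i * κ' i σ := by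
      rw [Finset.mul_sum]
      exact Finset.sum_congr rfl fun i _ => by ring
    have e2 : ∑ j, (φ y j - d j) * κ (Sum.inl j) σ =
        ∑ j, φ y j * κ (Sum.inl j) σ - ∑ j, d j * κ (Sum.inl j) σ := by
      rw [← Finset.sum_sub_distrib]
      exact Finset.sum_congr rfl fun i _ => by ring
    have e3 : ∑ j, (-φ y j - d j) * κ (Sum.inr j) σ =
        ∑ j, -φ y j * κ (Sum.inr j) σ - ∑ j, d j * κ (Sum.inr j) σ := by
      rw [← Finset.sum_sub_distrib]
      exact Finset.sum_congr rfl fun i _ => by ring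
    have e4 : ∑ j, d j * (κ (Sum.inl j) σ + κ (Sum.inr j) σ) =
        ∑ j, d j * κ (Sum.inl j) σ + ∑ j, d j * κ (Sum.inr j) σ := by
      rw [← Finset.sum_add_distrib]
      exact Finset.sum_congr rfl fun i _ => by ring
    have e5 : ∑ j, Sum.elim (φ y) (fun j => -φ y j) (Sum.inl j) * κ (Sum.inl j) σ =
        ∑ j, φ y j * κ (Sum.inl j) σ := rfl
    have e6 : ∑ j, Sum.elim (φ y) (fun j => -φ y j) (Sum.inr j) * κ (Sum.inr j) σ =
        ∑ j, -φ y j * κ (Sum.inr j) σ := rfl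
    rw [e4, e5, e6] at h2
    rw [e1, e2, e3]
    linear_combination h2 - c0 * h3)
  have h4 : φ y = 0 := by
    funext j
    have h5 : φ y j - d j = 0 := congrFun h1.2.1 j
    have h6 : -φ y j - d j = 0 := congrFun h1.2.2 j
    have h7 : (3 : ZMod 3) = 0 := by decide
    rw [Pi.zero_apply]
    linear_combination -h5 + h6 + φ y j * h7
  exact hφi (h4.trans (map_zero φ).symm)

end Q155.BS
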